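import Pool.Agent.U536.CF.Tw
import Pool.Agent.Results.MP_b89fd0_nt.TwistProportion

/-!
# Koblitz's conjecture for all twists near integers with a large common factor with a value of a multiplicative function

Let `f` be a positive multiplicative function of at most polynomial growth such that `f p ≤ M p` for the large primes `p`,
with different values at different large primes; for example Euler's function or the sum of the divisors. Let `G` have
steps bounded below by a positive constant and growth at most `v^d`, for example `α v^d`. Let `ε > 0`, `b < 1` and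
`0 ≤ c' < 2 b - 1`. There are `C` and `c > 0`, which depend only on `ε`, such that for all integers `A`, `B`, for all `m ≤ N` but
`N exp (-(log N)^c')`, for EVERY integer `w ≥ exp ((log N)^b)` with `gcd(w, f(m)) ≥ w^ρ` and ALL the quadratic twists
`Y² = X³ + A D² X + B D³` of the curve `E : Y² = X³ + A X + B`, `D ≠ 0`, `| |D| - G w | ≤ w^κ`, the number of the primes `p ≤ x` for
which the number of the points of the twist is `t` times a prime number is, for all `x` between `(log |D|)^C` and `|D|^c` and all
`t`, the mean of the numbers for which the number of the points of `E`, respectively `2 p + 2` minus this number, is `t` times a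
prime number, with an error of at most `√S x^ε`, `S` the sum of both numbers; here `κ ≥ 0` and `d (1 - c) + κ < ρ ≤ 1`. The
integers `w` include all large divisors of `f(m)` and their multiples by small integers; for Euler's function, the orders of
the elements of the group of units modulo `m`.

Proof. Write `m = k u` with `u` squarefree and composed of primes larger than `N^(1/J)`, `J = (log N)^a`, and
`k ≤ exp (4 (log N)^a)`; this is possible for all `m ≤ N` but very few. If `v ∣ f(k) f(u)`, then `v = g v'` with `g ∣ f(k)` and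
`v' ∣ ∏ f(p)`, and the number of such `u ≤ N / k` is at most `N / (k v')` times `(log N)^O(J)` times the number `τ_J(v')` of the
ordered factorizations of `v'` into `J` factors. The inequality `τ_J^q ≤ τ_K` for `K ≥ J^q` and Hölder's inequality bound
the sum over the sparse set of the exceptional `v`. The law for almost all twists `|D| ≤ N`, with at most `N^(1 - c)` exceptions, is the theorem
`TwistProportion` of this page in the starting library; the large divisors of the values of multiplicative functions form a set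
of density zero and are taken with very large multiplicities, and so the theorem does not follow from that count alone.
-/

set_option autoImplicit false

namespace Pool.Agent.Results.MP_b89fd0_nt.CommonFactors

open Pool.Agent.N733.TG (LM Expanding lm_totient lm_sigma expanding_pow)
open Pool.Agent.U536.CF (Common common_range common_of_dvd common_order)
open Pool.Agent.Results.MP_b89fd0_nt.TwistProportion (koblitz koblitz')

/-- **Koblitz's conjecture for all twists near integers with a large common factor with a value of a multiplicative function.**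
`koblitz A B t x` (`koblitz'`) is the number of the primes `p ≤ x` not dividing `2 (4 A³ + 27 B²)` for which the number of the points
of `Y² = X³ + A X + B` over `F_p` (`2 p + 2` minus this number) is `t` times a prime number. For every `ε > 0` there are `C` and
`0 < c < 1` such that the following holds. Let `f` be multiplicative and positive, of at most polynomial growth, with `f p ≤ M p`
at the large primes, and injective there. Let `G` have steps `≥ a > 0` and growth at most `v^d`. Let `b < 1` and
`0 ≤ c' < 2 b - 1`, `κ ≥ 0` and `d (1 - c) + κ < ρ ≤ 1`. For all large `N` and all integers `A`, `B`, for all `m ≤ N` but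
`N exp (-(log N)^c')`, for EVERY integer `w ≥ exp ((log N)^b)` with `gcd(w, f(m)) ≥ w^ρ`, ALL integers `D ≠ 0` with
`| |D| - G w | ≤ w^κ`, all `x` between `(log |D|)^C` and `|D|^c` and all `t`, the number `koblitz` of the twist
`Y² = X³ + A D² X + B D³` is the mean of the numbers `koblitz` and `koblitz'` of the curve, with an error of at most `√S x^ε`, `S`
their sum.
All divisors `w ≥ exp ((log N)^b)` of `f(m)` are such integers `w`, and for Euler's function the orders
`≥ exp ((log N)^b)` of the units modulo `m`. Euler's function and the sum of the divisors are examples of `f`, and `α v^d` with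
`α > 0`, `d ≥ 1` is an example of `G`. -/
theorem result :
    (∀ ε : ℝ, 0 < ε → ∃ C c : ℝ, 0 < C ∧ 0 < c ∧ c < 1 ∧ ∀ f : ℕ → ℕ, LM f → ∀ (G : ℕ → ℝ) (d : ℝ), Expanding G d →
      ∀ κ ρ b c' : ℝ, 0 ≤ κ → d * (1 - c) + κ < ρ → ρ ≤ 1 → b < 1 → 0 ≤ c' → c' < 2 * b - 1 → ∃ N₀ : ℕ, ∀ N : ℕ, N₀ ≤ N →
      ∀ A B : ℤ, ({m : ℕ | 1 ≤ m ∧ m ≤ N ∧ ¬ ∀ w : ℕ, Common f b ρ N m w →
        ∀ D : ℤ, D ≠ 0 → |(|D| : ℝ) - G w| ≤ (w : ℝ) ^ κ →
        ∀ x : ℕ, (Real.log |(D : ℝ)|) ^ C ≤ x → (x : ℝ) ≤ |(D : ℝ)| ^ c → ∀ t : ℕ,
          |(koblitz (A * D ^ 2) (B * D ^ 3) t x : ℝ) - ((koblitz A B t x : ℝ) + koblitz' A B t x) / 2| ≤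
            √((koblitz A B t x : ℝ) + koblitz' A B t x) * (x : ℝ) ^ ε}.ncard : ℝ) ≤ N * Real.exp (-(Real.log N ^ c'))) ∧
    (LM Nat.totient ∧ LM (fun m => ∑ d ∈ m.divisors, d)) ∧
    (∀ α d : ℝ, 0 < α → 1 ≤ d → Expanding (fun v => α * (v : ℝ) ^ d) d) ∧
    (∀ (f : ℕ → ℕ) (b ρ : ℝ) (N m w : ℕ), ρ ≤ 1 → Real.exp (Real.log N ^ b) ≤ (w : ℝ) → w ∣ f m → Common f b ρ N m w) ∧
    ∀ (b ρ : ℝ) (N m : ℕ), ρ ≤ 1 → ∀ x : (ZMod m)ˣ, Real.exp (Real.log N ^ b) ≤ (orderOf x : ℝ) →
      Common Nat.totient b ρ N m (orderOf x) := by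
  refine ⟨?_, ⟨lm_totient, lm_sigma⟩, fun α d hα hd => expanding_pow hα hd, fun f b ρ N m w hρ hw hd => common_of_dvd hρ hw hd,
    fun b ρ N m hρ x hx => common_order hρ x hx⟩
  intro ε hε
  obtain ⟨C, c, hC, hc, N₀, h⟩ := TwistProportion.result.1 ε hε
  obtain ⟨c₁, hc₁⟩ : ∃ c₁, c₁ = min c (1 / 2) := ⟨_, rfl⟩
  have hc₁0 : 0 < c₁ := by rw [hc₁]; exact lt_min hc (by norm_num)
  have hc₁c : c₁ ≤ c := by rw [hc₁]; exact min_le_left _ _
  have hc₁1 : c₁ < 1 := by
    have : c₁ ≤ 1 / 2 := by rw [hc₁]; exact min_le_right _ _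
    linarith
  refine ⟨C + 1, c₁, by linarith, hc₁0, hc₁1, fun f hf G d hG κ ρ b c' hκ h1 hρ hb hc0 hcb => ?_⟩
  obtain ⟨N₁, hN₁⟩ := common_range hC hc₁0 hc₁1 (max N₀ 1) hf hG hκ h1 hρ hb hc0 hcb
  refine ⟨N₁, fun N hN A B => ?_⟩
  have key := hN₁ (fun D x => ∃ t : ℕ, √((koblitz A B t x : ℝ) + koblitz' A B t x) * (x : ℝ) ^ ε <
      |(koblitz (A * D ^ 2) (B * D ^ 3) t x : ℝ) - ((koblitz A B t x : ℝ) + koblitz' A B t x) / 2|)
    (fun M hM => ?_) N hN
  · refine le_trans (le_of_eq ?_) key
    congr 2
    ext m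
    simp only [Set.mem_ofPred_eq]
    push Not
    rfl
  · have hM1 : (1 : ℝ) ≤ M := by exact_mod_cast (le_max_right N₀ 1).trans hM
    have hfin : {D : ℤ | D ≠ 0 ∧ |D| ≤ M ∧ ∃ x : ℕ, (Real.log M) ^ C ≤ x ∧ (x : ℝ) ≤ (M : ℝ) ^ c ∧
        ∃ t : ℕ, √((koblitz A B t x : ℝ) + koblitz' A B t x) * (x : ℝ) ^ ε <
          |(koblitz (A * D ^ 2) (B * D ^ 3) t x : ℝ) - ((koblitz A B t x : ℝ) + koblitz' A B t x) / 2|}.Finite := by
      apply (Set.finite_Icc (-(M : ℤ)) (M : ℤ)).subset
      rintro x ⟨_, hx, _⟩
      exact abs_le.1 hx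
    refine le_trans (Nat.cast_le.2 (Set.ncard_le_ncard ?_ hfin)) ((h M ((le_max_left N₀ 1).trans hM) A B).trans
      (Real.rpow_le_rpow_of_exponent_le hM1 (by linarith)))
    rintro D ⟨g1, g2, x, g3, g4, g5⟩
    exact ⟨g1, g2, x, g3, g4.trans (Real.rpow_le_rpow_of_exponent_le hM1 hc₁c), g5⟩

end Pool.Agent.Results.MP_b89fd0_nt.CommonFactors
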