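import Pool.Agent.U471.DQ.Type

/-!
# Koblitz counts for all the curves of a family whose parameters are close to almost all the values of real polynomials

From Mathlib: `MvPolynomial.eval z A`: the value of the integer polynomial `A` at the integer point `z`;
`Polynomial.eval`, `Polynomial.coeff`, `Polynomial.natDegree`: real polynomials; `Nat.Prime`: primes; `IsAlgebraic ℚ`:
algebraic numbers.

Method: Weyl's inequality without losses for all the coefficients at the same time (an inverse theorem, from the starting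
files for the top coefficient), a discrete Fejer kernel for the integer parts of several functions, uniform distribution
in residue classes with a power saving, high moments in terms of the variances.
-/

set_option autoImplicit false

namespace Pool.Agent.Results.MP_b89fd0_nt.RealPolynomialCurves

open Finset

/-- The polynomials `f 0, ..., f (r - 1)` are not on major arcs, at the scale `N` and with the parameter `R`: for every
integer vector `l ≠ 0` with all `|l i| ≤ R` there is `1 ≤ j ≤ d` such that the number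
`∑ i, l i * (coefficient of f i at X ^ j)` has a distance of more than `R / N ^ j` from all the integers. -/
def Generic {r : ℕ} (d N : ℕ) (R : ℝ) (f : Fin r → Polynomial ℝ) : Prop :=
  ∀ l : Fin r → ℤ, l ≠ 0 → (∀ i, (|l i| : ℝ) ≤ R) → ∃ j : ℕ, 1 ≤ j ∧ j ≤ d ∧
    ∀ b : ℤ, R / (N : ℝ) ^ j < |∑ i, (l i : ℝ) * (f i).coeff j - b|

/-- `α` has a finite irrationality exponent. -/
def FiniteType (α : ℝ) : Prop := ∃ (w : ℕ) (c : ℝ), 0 < c ∧ ∀ q : ℕ, 1 ≤ q → ∀ a : ℤ, c / (q : ℝ) ^ w ≤ |q * α - a|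

/-- The number of the solutions `(x, y)` of `y² = x³ + a x + b` modulo `p`. -/
def points (p : ℕ) (a b : ℤ) : ℕ :=
  ((range p ×ˢ range p).filter (fun xy : ℕ × ℕ => (p : ℤ) ∣ (xy.2 : ℤ) ^ 2 - ((xy.1 : ℤ) ^ 3 + a * xy.1 + b))).card

/-- `p` does not divide `2 (4 a³ + 27 b²)` and `#E(F_p) / t` is a prime, for `E : y² = x³ + a x + b`. -/
def PrimeOrder (t p : ℕ) (a b : ℤ) : Prop :=
  ¬ (p : ℤ) ∣ 2 * (4 * a ^ 3 + 27 * b ^ 2) ∧ ∃ q : ℕ, q.Prime ∧ points p a b + 1 = t * q

open Classical in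
/-- The number `π_{E, t}(x)` of the primes `p ≤ x` with `PrimeOrder t p a b`, for `E : y² = x³ + a x + b`. -/
noncomputable def koblitz (a b : ℤ) (t x : ℕ) : ℕ :=
  (((range (x + 1)).filter Nat.Prime).filter (fun p => PrimeOrder t p a b)).card

open Classical in
/-- The expected number for the family `y² = x³ + A(z) x + B(z)`: the sum over the primes `p ≤ x` of the proportion of the
vectors `ν` of residues modulo `p` with `PrimeOrder t p A(ν) B(ν)`. -/
noncomputable def model {r : ℕ} (A B : MvPolynomial (Fin r) ℤ) (t x : ℕ) : ℝ :=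
  ∑ p ∈ (range (x + 1)).filter Nat.Prime, (((Fintype.piFinset (fun _ : Fin r => range p)).filter
    (fun ν => PrimeOrder t p (MvPolynomial.eval (fun i => (ν i : ℤ)) A) (MvPolynomial.eval (fun i => (ν i : ℤ)) B))).card : ℝ) /
      (p : ℝ) ^ r

lemma points_congr (p : ℕ) {A A' B B' : ℤ} (hA : (p : ℤ) ∣ A - A') (hB : (p : ℤ) ∣ B - B') :
    points p A B = points p A' B' := by
  unfold points
  congr 1
  apply filter_congr
  intro xy _
  have h : (p : ℤ) ∣ ((xy.2 : ℤ) ^ 2 - ((xy.1 : ℤ) ^ 3 + A * xy.1 + B)) -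
      ((xy.2 : ℤ) ^ 2 - ((xy.1 : ℤ) ^ 3 + A' * xy.1 + B')) := by
    have e : ((xy.2 : ℤ) ^ 2 - ((xy.1 : ℤ) ^ 3 + A * xy.1 + B)) -
      ((xy.2 : ℤ) ^ 2 - ((xy.1 : ℤ) ^ 3 + A' * xy.1 + B')) = -((A - A') * xy.1 + (B - B')) := by ring
    rw [e]
    exact (dvd_add (hA.mul_right _) hB).neg_right
  exact (dvd_iff_dvd_of_dvd_sub h)

lemma order_congr (t p : ℕ) {A A' B B' : ℤ} (hA : (p : ℤ) ∣ A - A') (hB : (p : ℤ) ∣ B - B') :
    PrimeOrder t p A B ↔ PrimeOrder t p A' B' := by
  unfold PrimeOrder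
  rw [points_congr p hA hB]
  have h : (p : ℤ) ∣ 2 * (4 * A ^ 3 + 27 * B ^ 2) - 2 * (4 * A' ^ 3 + 27 * B' ^ 2) := by
    have e : 2 * (4 * A ^ 3 + 27 * B ^ 2) - 2 * (4 * A' ^ 3 + 27 * B' ^ 2) =
      (A - A') * (8 * (A ^ 2 + A * A' + A' ^ 2)) + (B - B') * (54 * (B + B')) := by ring
    rw [e]
    exact dvd_add (hA.mul_right _) (hB.mul_right _)
  rw [dvd_iff_dvd_of_dvd_sub h]

/-- **(1)** Let `r` and `d ≥ 1` be integers and let `δ > 0`. There are `κ > 0` and `C` such that the following holds for all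
`N, R ≥ 1`, for all real polynomials `f 0, ..., f (r - 1)` of degree at most `d` which are not on major arcs (`Generic`) and
for ALL families `E_z : y² = x³ + A(z) x + B(z)` of curves with `r` parameters, `A, B ∈ ℤ[T_0, ..., T_{r - 1}]`.

All the integers `0 ≤ n < N` with at most `C N R ^ (- κ)` exceptions are such that for ALL integer vectors `z` with all
`|z i - f i (n)| ≤ R ^ κ`, for ALL `t ≤ R ^ κ` and ALL `x ≤ R ^ κ`, with `M = model A B t x` the expected number:
`|π_{E_z, t}(x) - M| ≤ C x ^ δ ((1 + log R) (1 + log R + M)) ^ (1 / 2)`.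

**(2)** If for every `i` there is `1 ≤ j ≤ d` such that the coefficient of `f i` at `X ^ j` has a finite irrationality exponent
and the coefficients of the other polynomials at `X ^ j` are zero (for `r = 1`: if a nonconstant coefficient has a finite
irrationality exponent), then (1) applies with `R = N ^ β`, for some `β > 0` and all large `N`. This includes irrational
algebraic coefficients. -/
theorem result :
    (∀ (r d : ℕ), 1 ≤ d → ∀ δ : ℝ, 0 < δ → ∃ κ C : ℝ, 0 < κ ∧ 0 < C ∧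
      ∀ (N : ℕ) (R : ℝ) (f : Fin r → Polynomial ℝ), 1 ≤ N → 1 ≤ R → (∀ i, (f i).natDegree ≤ d) → Generic d N R f →
      ∀ A B : MvPolynomial (Fin r) ℤ,
      ∃ E : Finset ℕ, (E.card : ℝ) ≤ C * (N * R ^ (-κ)) ∧ ∀ n : ℕ, n < N → n ∉ E →
        ∀ z : Fin r → ℤ, (∀ i, |(z i : ℝ) - (f i).eval (n : ℝ)| ≤ R ^ κ) →
        ∀ t : ℕ, (t : ℝ) ≤ R ^ κ → ∀ x : ℕ, (x : ℝ) ≤ R ^ κ →
          |(koblitz (MvPolynomial.eval z A) (MvPolynomial.eval z B) t x : ℝ) - model A B t x| ≤
            C * ((x : ℝ) ^ δ * √((1 + Real.log R) * (1 + Real.log R + model A B t x)))) ∧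
    (∀ (r d : ℕ) (f : Fin r → Polynomial ℝ),
      (∀ i, ∃ j, 1 ≤ j ∧ j ≤ d ∧ FiniteType ((f i).coeff j) ∧ ∀ i', i' ≠ i → (f i').coeff j = 0) →
      ∃ β : ℝ, 0 < β ∧ ∃ N₀ : ℕ, ∀ N : ℕ, N₀ ≤ N → Generic d N ((N : ℝ) ^ β) f) ∧
    (∀ α : ℝ, Irrational α → IsAlgebraic ℚ α → FiniteType α) := by
  refine ⟨?_, ?_, fun α h h' => Pool.Agent.U471.DQ.finType_alg h h'⟩
  · intro r d hd δ hδ
    obtain ⟨κ, C, h1, _, h3, H⟩ := Pool.Agent.U471.DQ.near_count r d hd δ hδ
    refine ⟨κ, C, h1, by linarith, ?_⟩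
    intro N R f hN hR hf hgen A B
    obtain ⟨E, _, hE2, hE3⟩ := H N R f hN hR hf hgen
      (fun t p z => PrimeOrder t p (MvPolynomial.eval z A) (MvPolynomial.eval z B)) (by
        intro t p _ u u' hu
        exact order_congr t p (Pool.Agent.U471.DQ.mv_congr A hu) (Pool.Agent.U471.DQ.mv_congr B hu))
    refine ⟨E, hE2, fun n hn hnE z hz t ht x hx => ?_⟩
    have h4 := hE3 n (mem_range.2 hn) hnE z hz t ht x hx
    have e1 : Pool.Agent.U471.DQ.cnt (fun p z => PrimeOrder t p (MvPolynomial.eval z A) (MvPolynomial.eval z B)) z x =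
        koblitz (MvPolynomial.eval z A) (MvPolynomial.eval z B) t x := rfl
    have e2 : Pool.Agent.U471.DQ.mdl (fun p (z : Fin r → ℤ) => PrimeOrder t p (MvPolynomial.eval z A) (MvPolynomial.eval z B)) x =
        model A B t x := rfl
    rw [e1, e2] at h4
    exact h4
  · intro r d f h
    obtain ⟨β, h1, _, h3⟩ := Pool.Agent.U471.DQ.gen_of_type d f h
    exact ⟨β, h1, h3⟩

end Pool.Agent.Results.MP_b89fd0_nt.RealPolynomialCurves
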