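import Pool.Agent.R459.Bsd4
import Pool.Agent.U710.LE.BB

/-!
# Koblitz counts for all the curves `y² = x³ + a x + n` near almost all values of functions which grow faster than any power

From the starting library (`Pool.Agent.W263.BSD`): `GoodPrime a n p`: `p` is a prime which does not divide
`2 (4 a³ + 27 n²)`; `pointCount a n p`: the number of the affine points of `y² = x³ + a x + n` modulo `p`.

Method (`Pool.Agent.U710.LE`, new): exponential sums over the integer parts of `exp (α (log m) ^ γ + β)`, with the mean value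
theorem of Vinogradov for a degree which tends to infinity; they are small at all frequencies at a distance of at least
`exp (-(log y) ^ η)`, `η < 3 - 2 γ`, from the integers. The passage from the characteristic function to sums over primes of
functions of residues, for almost all members of a family, is from the starting files (`Pool.Agent.R459.Eq`,
`Pool.Agent.N794.CG`); the elementary lemmas are those of the starting file `NonIntegralOrderCurves`.
-/

set_option autoImplicit false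

namespace Pool.Agent.Results.MP_b89fd0_nt.SubexponentialCurves

open Finset Filter Pool.Agent.R459.Eq
open Pool.Agent.W263.BSD (GoodPrime pointCount)

/-- The sequence: `S α β γ m = ⌊exp (α (log m) ^ γ + β)⌋`. -/
noncomputable def S (α β γ : ℝ) (m : ℕ) : ℕ := ⌊Real.exp (α * Real.log m ^ γ + β)⌋₊

/-- `p` is a prime of good reduction of `y² = x³ + a x + n`, and `#E(F_p) / t` is a prime. -/
def PrimeOrder (t p : ℕ) (a n : ℤ) : Prop := GoodPrime a n p ∧ ∃ q : ℕ, q.Prime ∧ pointCount a n p + 1 = t * q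

open Classical in
/-- The number `π_{E, t}(x)` of the primes `p ≤ x` of good reduction of `E : y² = x³ + a x + n` for which `#E(F_p) / t` is a prime. -/
noncomputable def koblitz (a n : ℤ) (t x : ℕ) : ℕ := ((range (x + 1)).filter (fun p => PrimeOrder t p a n)).card

open Classical in
/-- The sum over the primes `p ≤ x` of the proportion of the residues `ν` modulo `p` for which `p` is a prime of good reduction
of `y² = x³ + a x + ν` with `#E(F_p) / t` a prime. -/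
noncomputable def model (a : ℤ) (t x : ℕ) : ℝ :=
  ∑ p ∈ (range (x + 1)).filter Nat.Prime, (((range p).filter (fun ν : ℕ => PrimeOrder t p a ν)).card : ℝ) / p

open Classical in
/-- The sum over the primes `p ≤ x` of the proportion of the pairs `(α, ν)` of residues modulo `p` for which `p` is a prime of
good reduction of `y² = x³ + α x + ν` with `#E(F_p) / t` a prime. -/
noncomputable def modelPairs (t x : ℕ) : ℝ :=
  ∑ p ∈ (range (x + 1)).filter Nat.Prime,
    (((range p ×ˢ range p).filter (fun z : ℕ × ℕ => PrimeOrder t p z.1 z.2)).card : ℝ) / (p : ℝ) ^ 2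

lemma pri_eq (x : ℕ) [DecidablePred Nat.Prime] : (range (x + 1)).filter Nat.Prime = pri x := by
  unfold pri
  congr!

lemma koblitz_eq (a n : ℤ) (t x : ℕ) : koblitz a n t x = cntR (PrimeOrder t) a n x := by
  classical
  unfold koblitz cntR
  congr 1
  ext p
  simp only [mem_filter, mem_range, mem_pri]
  constructor
  · rintro ⟨h1, h2⟩
    exact ⟨⟨by omega, h2.1.1⟩, h2⟩
  · rintro ⟨h1, h2⟩
    exact ⟨by omega, h2⟩

lemma model_eq (a : ℤ) (t x : ℕ) : model a t x = ∑ p ∈ pri x, Pool.Agent.R459.Eq.dens (PrimeOrder t) a p := by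
  classical
  unfold model Pool.Agent.R459.Eq.dens
  rw [pri_eq]

lemma modelPairs_eq (t x : ℕ) : modelPairs t x = ∑ p ∈ pri x, dens2 (PrimeOrder t) p := by
  classical
  unfold modelPairs dens2
  rw [pri_eq]

lemma order_per (t p : ℕ) (hp : p.Prime) (a a' n n' : ℤ) (h : (p : ℤ) ∣ a - a') (h' : (p : ℤ) ∣ n - n') :
    PrimeOrder t p a n ↔ PrimeOrder t p a' n' := by
  have e1 : ((a : ℤ) : ZMod p) = ((a' : ℤ) : ZMod p) := by
    rw [← sub_eq_zero, ← Int.cast_sub, ZMod.intCast_zmod_eq_zero_iff_dvd]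
    exact h
  have e2 : ((n : ℤ) : ZMod p) = ((n' : ℤ) : ZMod p) := by
    rw [← sub_eq_zero, ← Int.cast_sub, ZMod.intCast_zmod_eq_zero_iff_dvd]
    exact h'
  have h1 : GoodPrime a n p ↔ GoodPrime a' n' p := by
    unfold GoodPrime
    rw [← ZMod.intCast_zmod_eq_zero_iff_dvd, ← ZMod.intCast_zmod_eq_zero_iff_dvd]
    push_cast
    rw [e1, e2]
  have h2 : pointCount a n p = pointCount a' n' p := by
    unfold pointCount
    rw [e1, e2]
  unfold PrimeOrder
  rw [h1, h2]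

lemma order_few (p : ℕ) (hp : p.Prime) (a n : ℤ) (Q : Finset ℕ) (hQ : ∀ j ∈ Q, PrimeOrder j p a n) : Q.card ≤ Nat.log 2 p + 3 := by
  rcases Q.eq_empty_or_nonempty with h | ⟨j₀, hj₀⟩
  · rw [h, card_empty]
    omega
  have hgood := (hQ j₀ hj₀).1
  obtain ⟨m, hm⟩ : ∃ m, m = pointCount a n p + 1 := ⟨_, rfl⟩
  have hm4 : m ≤ 4 * p := by
    haveI : Fact p.Prime := ⟨hp⟩
    have hp2 : p ≠ 2 := by
      intro h2
      apply hgood.2
      rw [h2]
      exact Dvd.intro _ rfl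
    have h1 := Pool.Agent.R459.Bsd.pc_eq hp2 a n
    have h2 := Pool.Agent.R459.Bsd.tr_abs hp2 (a : ZMod p) (n : ZMod p)
    rw [← h1] at h2
    rw [abs_le] at h2
    have hp1 : (1 : ℝ) ≤ p := by exact_mod_cast hp.one_le
    have h3 : √(p : ℝ) ≤ p := by
      rw [Real.sqrt_le_left (by linarith)]
      nlinarith
    have h4 : (m : ℝ) ≤ 4 * p := by
      rw [hm]
      push_cast
      linarith [h2.1]
    exact_mod_cast h4
  have hm1 : m ≠ 0 := by omega
  have h1 : Q.card ≤ m.primeFactors.card := by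
    apply card_le_card_of_injOn (fun j => m / j)
    · intro j hj
      obtain ⟨q, hq, hjq⟩ := (hQ j (mem_coe.1 hj)).2
      rw [← hm] at hjq
      have hj0 : 0 < j := Nat.pos_of_ne_zero (by rintro rfl; omega)
      have e : m / j = q := by rw [hjq]; exact Nat.mul_div_cancel_left q hj0
      simp only [mem_coe, Nat.mem_primeFactors, ne_eq]
      rw [e]
      exact ⟨hq, ⟨j, by rw [hjq]; ring⟩, hm1⟩
    · intro j hj j' hj' h
      obtain ⟨q, hq, hjq⟩ := (hQ j (mem_coe.1 hj)).2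
      obtain ⟨q', hq', hjq'⟩ := (hQ j' (mem_coe.1 hj')).2
      rw [← hm] at hjq hjq'
      have hj0 : 0 < j := Nat.pos_of_ne_zero (by rintro rfl; omega)
      have hj0' : 0 < j' := Nat.pos_of_ne_zero (by rintro rfl; omega)
      have e : m / j = q := by rw [hjq]; exact Nat.mul_div_cancel_left q hj0
      have e' : m / j' = q' := by rw [hjq']; exact Nat.mul_div_cancel_left q' hj0'
      simp only at h
      rw [e, e'] at h
      rw [h] at hjq
      rw [hjq] at hjq'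
      exact Nat.eq_of_mul_eq_mul_right hq'.pos hjq'
  have h2 : 2 ^ m.primeFactors.card ≤ m := by
    calc 2 ^ m.primeFactors.card ≤ ∏ q ∈ m.primeFactors, q :=
          Finset.pow_card_le_prod _ _ _ fun q hq => (Nat.prime_of_mem_primeFactors hq).two_le
      _ ≤ m := Nat.le_of_dvd (by omega) (Nat.prod_primeFactors_dvd m)
  have h3 : m.primeFactors.card ≤ Nat.log 2 m := Nat.le_log_of_pow_le (by norm_num) h2
  have h4 : Nat.log 2 m ≤ Nat.log 2 p + 2 := by
    calc Nat.log 2 m ≤ Nat.log 2 (p * 2 * 2) := Nat.log_mono_right (by omega)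
      _ = Nat.log 2 p + 2 := by
        rw [Nat.log_mul_base (by norm_num) (by have := hp.pos; omega), Nat.log_mul_base (by norm_num) hp.ne_zero]
  omega


/-- the counts for the curves with a given first coefficient -/
def QK (δ : ℝ) (a : ℤ) (x : ℕ) (n : ℤ) : Prop :=
  (∀ t : ℕ, t ≤ x → |(cntR (PrimeOrder t) a n x : ℝ) - ∑ p ∈ pri x, Pool.Agent.R459.Eq.dens (PrimeOrder t) a p| ≤
    (x : ℝ) ^ (1 / 2 + δ)) ∧
  (∀ t : ℕ, (t : ℝ) ≤ (x : ℝ) ^ (δ / 2) →
    |(cntR (PrimeOrder t) a n x : ℝ) - ∑ p ∈ pri x, Pool.Agent.R459.Eq.dens (PrimeOrder t) a p| ≤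
    √(max 1 (∑ p ∈ pri (2 * x), Pool.Agent.R459.Eq.dens (PrimeOrder t) a p)) * (x : ℝ) ^ δ)

open Pool.Agent.N794.CG in
lemma eng_K (δ : ℝ) (hδ : 0 < δ) (hδ1 : δ ≤ 1 / 2) : Eng (fun X : ℕ => 2 * (X : ℝ) ^ (-(δ / 2))) (QK δ) := by
  intro b hb A γ hγ0 hγ1
  obtain ⟨W, hW, H⟩ := dom_two_count b hb A γ hγ0 hγ1 δ hδ hδ1
  refine ⟨W, hW, fun F κ hF hκ => ?_⟩
  obtain ⟨X₀, J⟩ := H F κ hF hκ
  exact ⟨X₀, fun X hX k Λ ι Ω w v hdom a => (J X hX k Λ ι Ω w v hdom PrimeOrder order_per order_few).1 a⟩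

open Classical in
/-- Let `S(m) = ⌊exp (α (log m) ^ γ + β)⌋`, `α > 0`, `1 < γ < 3/2` (it grows faster than any power of `m`, and has only `N ^ o(1)`
members up to `N`). Let `0 < η < 3 - 2 γ`, `0 < δ ≤ 1 / 2`, and let `κ ≠ 0` and `A` be integers; in (2) let `S'`, `κ'` be a second
sequence and a second integer of this kind, with the same `η`.

(1) Let `X` and `y` be sufficiently large, `y / (log y) ^ A ≤ h ≤ y / log y`, and let `c₀`, `R ≥ 0` and `a` be ANY integers. All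
but at most `2 (2 R + 1) X ^ (- δ / 2) h` of the integers `m` in `(y - h, y]` are such that for ALL `n` with
`|n - (c₀ + κ S(m))| ≤ R`, ALL `x` with `X ≤ x ≤ exp ((log y) ^ η)` and ALL `t ≤ x` the number `π_{E, t}(x)` of the primes `p ≤ x`
of good reduction of `E : y² = x³ + a x + n` with `#E(F_p) / t` prime differs from the sum `M_a(t, x)` over the primes `p ≤ x`
of the proportion of the residues `ν` modulo `p` such that `y² = x³ + a x + ν` has this property by at most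
`x ^ (1 / 2 + δ)`, and, if `t ≤ x ^ (δ / 2)`, by at most `x ^ δ (max 1 M_a(t, 2 x)) ^ (1 / 2)`.

(2) Let `X`, `y` and `y'` be sufficiently large, `y / (log y) ^ A ≤ h ≤ y / log y`, `y' / (log y') ^ A ≤ h' ≤ y' / log y'`, and
let `c₀`, `c₀'` and `R ≥ 0` be ANY integers. All but at most `4 (2 R + 1) ^ 2 X ^ (- δ / 2) h h'` of the pairs `(m, m')` of
integers `m` in `(y - h, y]` and `m'` in `(y' - h', y']` are such that for ALL `a`, `n` with `|a - (c₀ + κ S(m))| ≤ R` and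
`|n - (c₀' + κ' S'(m'))| ≤ R`, ALL `x ≥ X` with `x ≤ exp ((log y) ^ η)` and `x ≤ exp ((log y') ^ η)`, and ALL `t ≤ x ^ (δ / 2)` the
number `π_{E, t}(x)` differs from the sum `M(t, x)` over the primes `p ≤ x` of the proportion of the PAIRS of residues modulo
`p` for which the curve has this property by at most `3 x ^ (2 δ) (max 1 M(t, 4 x)) ^ (1 / 2)`. -/
theorem result (α β γ α' β' γ' η δ : ℝ) (hα : 0 < α) (hγ1 : 1 < γ) (hγ2 : γ < 3 / 2) (hα' : 0 < α') (hγ1' : 1 < γ')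
    (hγ2' : γ' < 3 / 2) (hη0 : 0 < η) (hη : η < 3 - 2 * γ) (hη' : η < 3 - 2 * γ') (hδ : 0 < δ) (hδ1 : δ ≤ 1 / 2)
    (κ κ' : ℤ) (hκ : κ ≠ 0) (hκ' : κ' ≠ 0) (A : ℕ) :
    ∃ X₀ y₀ : ℕ, ∀ X : ℕ, X₀ ≤ X → ∀ y h : ℕ, y₀ ≤ y → (y : ℝ) / Real.log y ^ A ≤ h → (h : ℝ) ≤ y / Real.log y →
      (∀ (c₀ a : ℤ) (R : ℕ), (((Ioc (y - h) y).filter (fun m : ℕ => ¬ ∀ n : ℤ, |n - (c₀ + κ * (S α β γ m : ℕ))| ≤ R →
        ∀ x : ℕ, X ≤ x → (x : ℝ) ≤ Real.exp (Real.log y ^ η) →
        (∀ t : ℕ, t ≤ x → |(koblitz a n t x : ℝ) - model a t x| ≤ (x : ℝ) ^ (1 / 2 + δ)) ∧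
        (∀ t : ℕ, (t : ℝ) ≤ (x : ℝ) ^ (δ / 2) →
          |(koblitz a n t x : ℝ) - model a t x| ≤ √(max 1 (model a t (2 * x))) * (x : ℝ) ^ δ))).card : ℝ) ≤
        2 * (2 * (R : ℝ) + 1) * (X : ℝ) ^ (-(δ / 2)) * h) ∧
      (∀ y' h' : ℕ, y₀ ≤ y' → (y' : ℝ) / Real.log y' ^ A ≤ h' → (h' : ℝ) ≤ y' / Real.log y' → ∀ (c₀ c₀' : ℤ) (R : ℕ),
        (((Ioc (y - h) y ×ˢ Ioc (y' - h') y').filter (fun z : ℕ × ℕ => ¬ ∀ a n : ℤ,
        |a - (c₀ + κ * (S α β γ z.1 : ℕ))| ≤ R → |n - (c₀' + κ' * (S α' β' γ' z.2 : ℕ))| ≤ R → ∀ x : ℕ, X ≤ x →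
        (x : ℝ) ≤ Real.exp (Real.log y ^ η) → (x : ℝ) ≤ Real.exp (Real.log y' ^ η) → ∀ t : ℕ, (t : ℝ) ≤ (x : ℝ) ^ (δ / 2) →
        |(koblitz a n t x : ℝ) - modelPairs t x| ≤ 3 * √(max 1 (modelPairs t (4 * x))) * (x : ℝ) ^ (2 * δ))).card : ℝ) ≤
        4 * (2 * (R : ℝ) + 1) ^ 2 * (X : ℝ) ^ (-(δ / 2)) * ((h : ℝ) * h')) := by
  obtain ⟨X₁, y₁, H₁⟩ := Pool.Agent.U710.LE.eng_sub (eng_K δ hδ hδ1) α β γ η hα hγ1 hγ2 hη0 hη A κ hκ
  obtain ⟨X₂, y₂, H₂⟩ := Pool.Agent.U710.LE.sub_pairs α β γ α' β' γ' η δ hα hγ1 hγ2 hα' hγ1' hγ2' hη0 hη hη' hδ hδ1 κ κ'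
    hκ hκ' A
  refine ⟨X₁ + X₂, y₁ + y₂, fun X hX y h hy hh1 hh2 => ⟨fun c₀ a R => ?_, fun y' h' hy' hh1' hh2' c₀ c₀' R => ?_⟩⟩
  · have h1 := H₁ X (by omega) y h (by omega) hh1 hh2 c₀ R a
    refine le_trans (le_trans (Nat.cast_le.2 (card_le_card fun m hm => ?_)) h1) (le_of_eq (by ring))
    obtain ⟨hm1, hm2⟩ := mem_filter.1 hm
    refine mem_filter.2 ⟨hm1, fun hcon => hm2 fun n hn x hXx hxZ => ?_⟩
    obtain ⟨g1, g2⟩ := hcon n hn x hXx hxZ
    refine ⟨fun t ht => ?_, fun t ht => ?_⟩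
    · rw [koblitz_eq, model_eq]
      exact g1 t ht
    · rw [koblitz_eq, model_eq, model_eq]
      exact g2 t ht
  · have h1 := H₂ X (by omega) y h y' h' (by omega) (by omega) hh1 hh2 hh1' hh2' c₀ c₀' R PrimeOrder order_per order_few
    refine le_trans (Nat.cast_le.2 (card_le_card fun z hz => ?_)) h1
    obtain ⟨hz1, hz2⟩ := mem_filter.1 hz
    refine mem_filter.2 ⟨hz1, fun hcon => hz2 fun a n ha hn x hXx hx1 hx2 t ht => ?_⟩
    rw [koblitz_eq, modelPairs_eq, modelPairs_eq]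
    exact hcon a n ha hn x hXx hx1 hx2 t ht

end Pool.Agent.Results.MP_b89fd0_nt.SubexponentialCurves
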